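import Pool.Agent.helper30.RQ.PR

/-!
# BK: the matrix of the baker map
-/

set_option autoImplicit false

open Matrix
open scoped BigOperators ComplexConjugate

namespace Pool.Agent.helper30.RQ

open Pool.Agent.helper98.RPB

theorem BK_row_sum {M : Type*} [AddCommMonoid M] {D k : ℕ} (x : Word D (k + 1))
    (f : Word D (k + 1) → M) :
    ∑ x', (if Fin.init x = Fin.tail x' then f x' else 0) =
      ∑ y : Fin D, f (Fin.cons y (Fin.init x : Fin k → Fin D)) := by
  rw [← Finset.sum_filter]
  symm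
  refine Finset.sum_nbij' (fun y => (Fin.cons y (Fin.init x) : Word D (k + 1)))
    (fun x' => x' 0) ?_ ?_ ?_ ?_ ?_
  · intro y _
    simp only [Finset.mem_filter, Finset.mem_univ, true_and]
    rw [Fin.tail_cons]
  · intro x' _
    exact Finset.mem_univ _
  · intro y _
    exact Fin.cons_zero _ _
  · intro x' hx'
    simp only [Finset.mem_filter, Finset.mem_univ, true_and] at hx'
    rw [hx']
    exact Fin.cons_self_tail x'
  · intro y _
    rfl

theorem BK_col_sum {M : Type*} [AddCommMonoid M] {D k : ℕ} (x' : Word D (k + 1))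
    (f : Word D (k + 1) → M) :
    ∑ x, (if Fin.init x = Fin.tail x' then f x else 0) =
      ∑ a : Fin D, f (Fin.snoc (Fin.tail x' : Fin k → Fin D) a) := by
  rw [← Finset.sum_filter]
  symm
  refine Finset.sum_nbij' (fun a => (Fin.snoc (Fin.tail x') a : Word D (k + 1)))
    (fun x => x (Fin.last k)) ?_ ?_ ?_ ?_ ?_
  · intro a _
    simp only [Finset.mem_filter, Finset.mem_univ, true_and]
    rw [Fin.init_snoc]
  · intro x _
    exact Finset.mem_univ _
  · intro a _
    exact Fin.snoc_last (α := fun _ => Fin D) _ _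
  · intro x hx
    simp only [Finset.mem_filter, Finset.mem_univ, true_and] at hx
    rw [← hx]
    exact Fin.snoc_init_self x
  · intro y _
    rfl

theorem bakerMap_eq_mulVec {D k : ℕ} (W : Matrix (Fin D) (Fin D) ℂ) (θ : Word D (k + 1) → ℝ)
    (ψ : Word D (k + 1) → ℂ) : bakerMap W θ ψ = phased (bakerMat k W) θ *ᵥ ψ := by
  funext x
  simp only [bakerMap, mulVec, dotProduct, phased, bakerMat, of_apply]
  have h := BK_row_sum x (fun x' => Complex.exp (2 * Real.pi * θ x * Complex.I) *
    (W (x (Fin.last k)) (x' 0) * ψ x'))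
  rw [Finset.mul_sum]
  simp only [Fin.cons_zero] at h
  rw [← h]
  refine Finset.sum_congr rfl fun x' _ => ?_
  split_ifs <;> ring

theorem BK_phase (t : ℝ) : Complex.exp (2 * Real.pi * t * Complex.I) *
    conj (Complex.exp (2 * Real.pi * t * Complex.I)) = 1 := by
  rw [Complex.mul_conj']
  have : ‖Complex.exp (2 * Real.pi * t * Complex.I)‖ = 1 := by
    have := Complex.norm_exp_ofReal_mul_I (2 * Real.pi * t)
    push_cast at this
    exact this
  rw [this]; norm_num

theorem bakerMat_mem_unitary {D k : ℕ} (W : Matrix (Fin D) (Fin D) ℂ)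
    (hW : W ∈ Matrix.unitaryGroup (Fin D) ℂ) (θ : Word D (k + 1) → ℝ) :
    phased (bakerMat k W) θ ∈ Matrix.unitaryGroup (Word D (k + 1)) ℂ := by
  rw [Matrix.mem_unitaryGroup_iff]
  ext x z
  rw [Matrix.mul_apply]
  simp only [Matrix.star_apply, phased, bakerMat, of_apply]
  have hrow : ∀ a b : Fin D, ∑ y, W a y * star (W b y) = if a = b then 1 else 0 := by
    intro a b
    have h := congrFun (congrFun (Matrix.mem_unitaryGroup_iff.mp hW) a) b
    rw [Matrix.mul_apply, Matrix.one_apply] at h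
    simpa only [Matrix.star_apply] using h
  have h := BK_row_sum x (fun x' => Complex.exp (2 * Real.pi * θ x * Complex.I) *
    W (x (Fin.last k)) (x' 0) * star (Complex.exp (2 * Real.pi * θ z * Complex.I) *
      (if Fin.init z = Fin.tail x' then W (z (Fin.last k)) (x' 0) else 0)))
  have e : ∀ x' : Word D (k + 1),
      Complex.exp (2 * Real.pi * θ x * Complex.I) *
        (if Fin.init x = Fin.tail x' then W (x (Fin.last k)) (x' 0) else 0) *
        star (Complex.exp (2 * Real.pi * θ z * Complex.I) *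
          (if Fin.init z = Fin.tail x' then W (z (Fin.last k)) (x' 0) else 0)) =
      if Fin.init x = Fin.tail x' then Complex.exp (2 * Real.pi * θ x * Complex.I) *
        W (x (Fin.last k)) (x' 0) * star (Complex.exp (2 * Real.pi * θ z * Complex.I) *
        (if Fin.init z = Fin.tail x' then W (z (Fin.last k)) (x' 0) else 0)) else 0 := by
    intro x'
    by_cases h1 : Fin.init x = Fin.tail x'
    · rw [if_pos h1, if_pos h1]
    · rw [if_neg h1, if_neg h1]; ring
  rw [Finset.sum_congr rfl fun x' _ => e x', h]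
  simp only [Fin.cons_zero, Fin.tail_cons]
  rw [Matrix.one_apply]
  by_cases hxz : Fin.init z = Fin.init x
  · simp only [hxz, if_true]
    have h3 : ∀ y : Fin D, Complex.exp (2 * Real.pi * θ x * Complex.I) *
        W (x (Fin.last k)) y * star (Complex.exp (2 * Real.pi * θ z * Complex.I) *
          W (z (Fin.last k)) y) = Complex.exp (2 * Real.pi * θ x * Complex.I) *
          star (Complex.exp (2 * Real.pi * θ z * Complex.I)) *
          (W (x (Fin.last k)) y * star (W (z (Fin.last k)) y)) := by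
      intro y
      rw [star_mul']; ring
    rw [Finset.sum_congr rfl fun y _ => h3 y, ← Finset.mul_sum, hrow]
    by_cases h4 : x (Fin.last k) = z (Fin.last k)
    · have h5 : x = z := by
        rw [← Fin.snoc_init_self x, ← Fin.snoc_init_self z, hxz, h4]
      rw [if_pos h4, if_pos h5, h5, mul_one]
      exact BK_phase _
    · have h5 : x ≠ z := fun h => h4 (by rw [h])
      rw [if_neg h4, if_neg h5, mul_zero]
  · have h5 : x ≠ z := fun h => hxz (by rw [h])
    rw [if_neg h5]
    refine Finset.sum_eq_zero fun y _ => ?_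
    rw [if_neg hxz]; simp

theorem bakerMat_row {D k : ℕ} (W : Matrix (Fin D) (Fin D) ℂ)
    (hW : W ∈ Matrix.unitaryGroup (Fin D) ℂ) (x : Word D (k + 1)) :
    ∑ y, ‖bakerMat k W x y‖ ^ 2 = 1 := by
  have h := BK_row_sum x (fun x' => ‖W (x (Fin.last k)) (x' 0)‖ ^ 2)
  simp only [Fin.cons_zero] at h
  have h2 := PR_sqm_row W hW (x (Fin.last k))
  simp only [sqm, of_apply] at h2
  rw [← h2, ← h]
  refine Finset.sum_congr rfl fun y _ => ?_
  simp only [bakerMat, of_apply]
  split_ifs <;> simp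

theorem bakerMat_col {D k : ℕ} (W : Matrix (Fin D) (Fin D) ℂ)
    (hW : W ∈ Matrix.unitaryGroup (Fin D) ℂ) (y : Word D (k + 1)) :
    ∑ x, ‖bakerMat k W x y‖ ^ 2 = 1 := by
  have h := BK_col_sum y (fun x => ‖W (x (Fin.last k)) (y 0)‖ ^ 2)
  have h1 : ∀ a : Fin D, (Fin.snoc (Fin.tail y : Fin k → Fin D) a : Word D (k + 1))
      (Fin.last k) = a := fun a => Fin.snoc_last (α := fun _ => Fin D) _ _
  simp only [h1] at h
  have h2 := PR_sqm_col W hW (y 0)
  simp only [sqm, of_apply] at h2
  rw [← h2, ← h]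
  refine Finset.sum_congr rfl fun x _ => ?_
  simp only [bakerMat, of_apply]
  split_ifs <;> simp

open Classical in
theorem bakerMat_rowD {D k : ℕ} (W : Matrix (Fin D) (Fin D) ℂ) (x : Word D (k + 1)) :
    (Finset.univ.filter fun y => bakerMat k W x y ≠ 0).card ≤ D := by
  have h : (Finset.univ.filter fun y => bakerMat k W x y ≠ 0) ⊆
      Finset.univ.image (fun y : Fin D => (Fin.cons y (Fin.init x) : Word D (k + 1))) := by
    intro y hy
    simp only [Finset.mem_filter, Finset.mem_univ, true_and, bakerMat, of_apply] at hy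
    by_cases h1 : Fin.init x = Fin.tail y
    · rw [Finset.mem_image]
      exact ⟨y 0, Finset.mem_univ _, by rw [h1]; exact Fin.cons_self_tail y⟩
    · exact absurd (if_neg h1) hy
  refine (Finset.card_le_card h).trans (Finset.card_image_le.trans ?_)
  simp

open Classical in
theorem bakerMat_colD {D k : ℕ} (W : Matrix (Fin D) (Fin D) ℂ) (y : Word D (k + 1)) :
    (Finset.univ.filter fun x => bakerMat k W x y ≠ 0).card ≤ D := by
  have h : (Finset.univ.filter fun x => bakerMat k W x y ≠ 0) ⊆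
      Finset.univ.image (fun a : Fin D => (Fin.snoc (Fin.tail y) a : Word D (k + 1))) := by
    intro x hx
    simp only [Finset.mem_filter, Finset.mem_univ, true_and, bakerMat, of_apply] at hx
    by_cases h1 : Fin.init x = Fin.tail y
    · rw [Finset.mem_image]
      exact ⟨x (Fin.last k), Finset.mem_univ _, by rw [← h1]; exact Fin.snoc_init_self x⟩
    · exact absurd (if_neg h1) hx
  refine (Finset.card_le_card h).trans (Finset.card_image_le.trans ?_)
  simp

theorem BK_step {D k : ℕ} (W : Matrix (Fin D) (Fin D) ℂ) (x y : Word D (k + 1))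
    (h : bakerMat k W x y ≠ 0) (i : ℕ) (hi : i < k) :
    x ⟨i, by omega⟩ = y ⟨i + 1, by omega⟩ := by
  simp only [bakerMat, of_apply] at h
  by_cases h1 : Fin.init x = Fin.tail y
  · exact congrFun h1 ⟨i, hi⟩
  · exact absurd (if_neg h1) h

theorem BK_path {D k : ℕ} (W : Matrix (Fin D) (Fin D) ℂ)
    (p : Pth (Word D (k + 1)) (k + 1)) (hp : IsPath (bakerMat k W) p) (t r i : ℕ)
    (htr : t + r ≤ k + 1) (hi : i + r ≤ k) :
    p ⟨t + r, by omega⟩ ⟨i, by omega⟩ = p ⟨t, by omega⟩ ⟨i + r, by omega⟩ := by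
  induction r generalizing i with
  | zero => rfl
  | succ r ih =>
    have h1 := BK_step W _ _ (hp ⟨t + r, by omega⟩) i (by omega)
    have h2 := ih (i + 1) (by omega) (by omega)
    have e : p (Fin.succ ⟨t + r, by omega⟩) ⟨i, by omega⟩ =
        p ⟨t + (r + 1), by omega⟩ ⟨i, by omega⟩ := rfl
    have e2 : p (Fin.castSucc ⟨t + r, by omega⟩) ⟨i + 1, by omega⟩ =
        p ⟨t + r, by omega⟩ ⟨i + 1, by omega⟩ := rfl
    rw [e, e2] at h1
    rw [h1, h2]
    congr 1
    exact Fin.ext (by simp only; omega)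

theorem bakerMat_path_unique {D k : ℕ} (W : Matrix (Fin D) (Fin D) ℂ)
    (p p' : Pth (Word D (k + 1)) (k + 1)) (hp : IsPath (bakerMat k W) p)
    (hp' : IsPath (bakerMat k W) p') (h0 : p 0 = p' 0)
    (h1 : p (Fin.last (k + 1)) = p' (Fin.last (k + 1))) : p = p' := by
  funext t j
  obtain ⟨t, ht⟩ := t
  obtain ⟨j, hj⟩ := j
  by_cases hle : j + t ≤ k
  · have a1 := BK_path W p hp 0 t j (by omega) hle
    have a2 := BK_path W p' hp' 0 t j (by omega) hle
    have e1 : ∀ q : Pth (Word D (k + 1)) (k + 1), q ⟨0 + t, by omega⟩ = q ⟨t, ht⟩ := by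
      intro q
      congr 1
      exact Fin.ext (by simp only; omega)
    rw [e1 p] at a1
    rw [e1 p'] at a2
    rw [a1, a2]
    exact congrFun h0 _
  · have a1 := BK_path W p hp t (k + 1 - t) (j + t - (k + 1)) (by omega) (by omega)
    have a2 := BK_path W p' hp' t (k + 1 - t) (j + t - (k + 1)) (by omega) (by omega)
    have e1 : ∀ q : Pth (Word D (k + 1)) (k + 1),
        q ⟨t + (k + 1 - t), by omega⟩ = q (Fin.last (k + 1)) := by
      intro q
      congr 1
      exact Fin.ext (by simp only [Fin.val_last]; omega)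
    have e2 : (⟨j + t - (k + 1) + (k + 1 - t), by omega⟩ : Fin (k + 1)) = ⟨j, hj⟩ :=
      Fin.ext (by simp only; omega)
    rw [e1 p, e2] at a1
    rw [e1 p', e2] at a2
    rw [← a1, ← a2, h1]

theorem BK_sqm_row_sum {D k : ℕ} (W : Matrix (Fin D) (Fin D) ℂ) (x : Word D (k + 1))
    (f : Word D (k + 1) → ℝ) :
    ∑ y, sqm (bakerMat k W) x y * f y =
      ∑ b : Fin D, sqm W (x (Fin.last k)) b * f (Fin.cons b (Fin.init x : Fin k → Fin D)) := by
  have h := BK_row_sum x (fun x' => sqm W (x (Fin.last k)) (x' 0) * f x')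
  simp only [Fin.cons_zero] at h
  rw [← h]
  refine Finset.sum_congr rfl fun y _ => ?_
  simp only [sqm, bakerMat, of_apply]
  split_ifs <;> simp

theorem BK_sqm_pow {D k : ℕ} (W : Matrix (Fin D) (Fin D) ℂ) (s : ℕ) (x z : Word D (k + 1)) :
    (sqm (bakerMat k W) ^ s) x z = ∏ j : Fin (k + 1),
      (sqm W ^ ((j.1 + s) / (k + 1))) (x j) (z ⟨(j.1 + s) % (k + 1), Nat.mod_lt _ (by omega)⟩) := by
  induction s generalizing x with
  | zero =>
    rw [pow_zero, Matrix.one_apply]
    have h1 : ∀ j : Fin (k + 1), (sqm W ^ ((j.1 + 0) / (k + 1))) (x j)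
        (z ⟨(j.1 + 0) % (k + 1), Nat.mod_lt _ (by omega)⟩) = if x j = z j then 1 else 0 := by
      intro j
      have h2 : (j.1 + 0) / (k + 1) = 0 := Nat.div_eq_of_lt (by simpa using j.2)
      have h3 : (⟨(j.1 + 0) % (k + 1), Nat.mod_lt _ (by omega)⟩ : Fin (k + 1)) = j :=
        Fin.ext (Nat.mod_eq_of_lt j.2)
      rw [h2, h3, pow_zero, Matrix.one_apply]
    rw [Finset.prod_congr rfl fun j _ => h1 j]
    by_cases h : x = z
    · rw [if_pos h]
      simp [h]
    · rw [if_neg h]
      obtain ⟨j, hj⟩ := Function.ne_iff.mp h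
      exact (Finset.prod_eq_zero (Finset.mem_univ j) (if_neg hj)).symm
  | succ s ih =>
    rw [pow_succ', Matrix.mul_apply, BK_sqm_row_sum]
    simp_rw [ih]
    rw [Fin.prod_univ_castSucc]
    simp_rw [Fin.prod_univ_succ]
    have e1 : ∀ (b : Fin D) (i : Fin k), (Fin.cons b (Fin.init x) : Word D (k + 1)) i.succ =
        x i.castSucc := fun b i => rfl
    simp_rw [e1, Fin.cons_zero]
    simp_rw [← mul_assoc]
    rw [← Finset.sum_mul, mul_comm]
    congr 1
    · refine Finset.prod_congr rfl fun i _ => ?_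
      have h1 : (i.succ.1 + s) = (i.castSucc.1 + (s + 1)) := by
        simp only [Fin.val_succ, Fin.val_castSucc]; omega
      simp only [h1]
    · have h1 : ((Fin.last k).1 + (s + 1)) / (k + 1) = s / (k + 1) + 1 := by
        rw [Fin.val_last, show k + (s + 1) = s + (k + 1) by ring,
          Nat.add_div_right _ (Nat.succ_pos k)]
      have h2 : ((Fin.last k).1 + (s + 1)) % (k + 1) = s % (k + 1) := by
        rw [Fin.val_last, show k + (s + 1) = s + (k + 1) by ring, Nat.add_mod_right]
      have h3 : ((0 : Fin (k + 1)).1 + s) = s := by simp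
      simp only [h1, h2, h3]
      rw [pow_succ', Matrix.mul_apply]

/-- `(S ^ (k + 1)) x z = ∏ j, P (x j) (z j)`, `S = sqm (bakerMat k W)`, `P = sqm W`. -/
theorem sqm_bakerMat_pow {D k : ℕ} (W : Matrix (Fin D) (Fin D) ℂ) (q : ℕ)
    (x z : Word D (k + 1)) :
    (sqm (bakerMat k W) ^ (q * (k + 1))) x z = ∏ j, (sqm W ^ q) (x j) (z j) := by
  rw [BK_sqm_pow]
  refine Finset.prod_congr rfl fun j _ => ?_
  have h1 : (j.1 + q * (k + 1)) / (k + 1) = q := by
    rw [Nat.add_mul_div_right _ _ (Nat.succ_pos k), Nat.div_eq_of_lt j.2, zero_add]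
  have h2 : (⟨(j.1 + q * (k + 1)) % (k + 1), Nat.mod_lt _ (by omega)⟩ : Fin (k + 1)) = j := by
    refine Fin.ext ?_
    show (j.1 + q * (k + 1)) % (k + 1) = j.1
    rw [Nat.add_mul_mod_self_right, Nat.mod_eq_of_lt j.2]
  rw [h1, h2]

theorem sqm_bakerMat_pow_le {D k : ℕ} (W : Matrix (Fin D) (Fin D) ℂ)
    (hW : W ∈ Matrix.unitaryGroup (Fin D) ℂ) (q : ℕ) (r : ℝ)
    (hr : ∀ a b, (sqm W ^ q) a b ≤ r) (t : ℕ) (ht : q * (k + 1) ≤ t) (x z : Word D (k + 1)) :
    (sqm (bakerMat k W) ^ t) x z ≤ r ^ (k + 1) := by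
  obtain ⟨m, rfl⟩ := Nat.exists_eq_add_of_le' ht
  rw [pow_add, Matrix.mul_apply]
  have h0 := PR_pow_nonneg (sqm (bakerMat k W)) (PR_sqm_nonneg _) m
  have h1 : ∀ x, ∑ y, sqm (bakerMat k W) x y = 1 := fun x => by
    have := bakerMat_row W hW x
    simpa only [sqm, of_apply] using this
  have h2 := PR_pow_row (sqm (bakerMat k W)) h1 m x
  calc ∑ y, (sqm (bakerMat k W) ^ m) x y * (sqm (bakerMat k W) ^ (q * (k + 1))) y z
      ≤ ∑ y, (sqm (bakerMat k W) ^ m) x y * r ^ (k + 1) := by
        refine Finset.sum_le_sum fun y _ => mul_le_mul_of_nonneg_left ?_ (h0 x y)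
        rw [sqm_bakerMat_pow]
        calc ∏ j, (sqm W ^ q) (y j) (z j) ≤ ∏ _j : Fin (k + 1), r :=
              Finset.prod_le_prod (fun j _ => PR_pow_nonneg _ (PR_sqm_nonneg _) q _ _)
                fun j _ => hr _ _
          _ = r ^ (k + 1) := by simp
    _ = r ^ (k + 1) := by rw [← Finset.sum_mul, h2, one_mul]

end Pool.Agent.helper30.RQ
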