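import Pool.Agent.helper98.RPB.Defs

/-!
# PR: primitive doubly stochastic matrices
-/

set_option autoImplicit false

open Matrix
open scoped BigOperators ComplexConjugate

namespace Pool.Agent.helper30.RQ

open Pool.Agent.helper98.RPB

variable {X : Type*} [Fintype X] [DecidableEq X]

theorem PR_sqm_nonneg {Y : Type*} (W : Matrix Y Y ℂ) (a b : Y) : 0 ≤ sqm W a b := by
  simp only [sqm, of_apply]; positivity

theorem PR_sqm_row (W : Matrix X X ℂ) (hW : W ∈ Matrix.unitaryGroup X ℂ) (a : X) :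
    ∑ b, sqm W a b = 1 := by
  have h := congrFun (congrFun (Matrix.mem_unitaryGroup_iff.mp hW) a) a
  rw [Matrix.mul_apply, Matrix.one_apply_eq] at h
  have h2 : ∑ b, W a b * star W b a = ((∑ b, sqm W a b : ℝ) : ℂ) := by
    push_cast
    refine Finset.sum_congr rfl fun b _ => ?_
    rw [Matrix.star_apply, sqm, of_apply]
    have := Complex.mul_conj' (W a b)
    push_cast
    exact this
  rw [h2] at h
  exact_mod_cast h

theorem PR_sqm_col (W : Matrix X X ℂ) (hW : W ∈ Matrix.unitaryGroup X ℂ) (b : X) :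
    ∑ a, sqm W a b = 1 := by
  have h := congrFun (congrFun (Matrix.mem_unitaryGroup_iff'.mp hW) b) b
  rw [Matrix.mul_apply, Matrix.one_apply_eq] at h
  have h2 : ∑ a, star W b a * W a b = ((∑ a, sqm W a b : ℝ) : ℂ) := by
    push_cast
    refine Finset.sum_congr rfl fun a _ => ?_
    rw [Matrix.star_apply, sqm, of_apply]
    have := Complex.mul_conj' (W a b)
    push_cast
    rw [mul_comm]
    exact this
  rw [h2] at h
  exact_mod_cast h

theorem PR_pow_nonneg (P : Matrix X X ℝ) (h0 : ∀ a b, 0 ≤ P a b) (m : ℕ) (a b : X) :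
    0 ≤ (P ^ m) a b := by
  induction m generalizing a b with
  | zero =>
    rw [pow_zero, Matrix.one_apply]
    split_ifs <;> norm_num
  | succ m ih =>
    rw [pow_succ, Matrix.mul_apply]
    exact Finset.sum_nonneg fun c _ => mul_nonneg (ih a c) (h0 c b)

theorem PR_pow_row (P : Matrix X X ℝ) (h1 : ∀ a, ∑ b, P a b = 1) (m : ℕ) (a : X) :
    ∑ b, (P ^ m) a b = 1 := by
  induction m generalizing a with
  | zero => simp [Matrix.one_apply]
  | succ m ih =>
    simp_rw [pow_succ, Matrix.mul_apply]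
    rw [Finset.sum_comm]
    simp_rw [← Finset.mul_sum, h1, mul_one]
    exact ih a

theorem PR_pow_col (P : Matrix X X ℝ) (h1 : ∀ b, ∑ a, P a b = 1) (m : ℕ) (b : X) :
    ∑ a, (P ^ m) a b = 1 := by
  induction m generalizing b with
  | zero => simp [Matrix.one_apply]
  | succ m ih =>
    simp_rw [pow_succ, Matrix.mul_apply]
    rw [Finset.sum_comm]
    simp_rw [← Finset.sum_mul, ih, one_mul]
    exact h1 b

/-- Doeblin's bound. -/
theorem PR_doeblin {D : ℕ} (hD : 1 ≤ D) (Q : Matrix (Fin D) (Fin D) ℝ) (κ : ℝ)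
    (hκ : ∀ a b, κ ≤ Q a b) (_hκ0 : 0 ≤ κ) (hrow : ∀ a, ∑ b, Q a b = 1)
    (hcol : ∀ b, ∑ a, Q a b = 1) (m : ℕ) (a b : Fin D) :
    |(Q ^ m) a b - 1 / D| ≤ (1 - D * κ) ^ m := by
  have hD0 : (0 : ℝ) < D := by exact_mod_cast hD
  induction m generalizing a with
  | zero =>
    rw [pow_zero, pow_zero, Matrix.one_apply]
    have h1 : (0 : ℝ) < 1 / D := by positivity
    have h2 : (1 : ℝ) / D ≤ 1 := by
      rw [div_le_one hD0]; exact_mod_cast hD
    split_ifs
    · rw [abs_le]; constructor <;> linarith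
    · rw [abs_le]; constructor <;> linarith
  | succ m ih =>
    have hsum : ∑ c, ((Q ^ m) c b - 1 / D) = 0 := by
      rw [Finset.sum_sub_distrib, PR_pow_col Q hcol m b]
      simp
      field_simp
      simp
    have e : (Q ^ (m + 1)) a b - 1 / D = ∑ c, (Q a c - κ) * ((Q ^ m) c b - 1 / D) := by
      simp_rw [sub_mul _ κ, Finset.sum_sub_distrib]
      rw [← Finset.mul_sum _ _ κ, hsum, mul_zero, sub_zero]
      simp_rw [mul_sub, Finset.sum_sub_distrib]
      rw [← Finset.sum_mul, hrow a, one_mul, pow_succ', Matrix.mul_apply]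
    rw [e]
    calc |∑ c, (Q a c - κ) * ((Q ^ m) c b - 1 / D)|
        ≤ ∑ c, |(Q a c - κ) * ((Q ^ m) c b - 1 / D)| := Finset.abs_sum_le_sum_abs _ _
      _ ≤ ∑ c, (Q a c - κ) * (1 - D * κ) ^ m := by
          refine Finset.sum_le_sum fun c _ => ?_
          rw [abs_mul, abs_of_nonneg (sub_nonneg.mpr (hκ a c))]
          exact mul_le_mul_of_nonneg_left (ih c) (sub_nonneg.mpr (hκ a c))
      _ = (1 - D * κ) ^ (m + 1) := by
          rw [← Finset.sum_mul, Finset.sum_sub_distrib, hrow a]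
          simp
          ring

theorem exists_pow_le {D : ℕ} (W : Matrix (Fin D) (Fin D) ℂ)
    (hW : W ∈ Matrix.unitaryGroup (Fin D) ℂ) (hmix : IsMixing W) (η : ℝ) (hη : 0 < η) :
    ∃ q : ℕ, 1 ≤ q ∧ ∀ a b, (sqm W ^ q) a b ≤ (1 + η) / D := by
  rcases Nat.eq_zero_or_pos D with rfl | hD
  · exact ⟨1, le_refl _, fun a => a.elim0⟩
  have hD0 : (0 : ℝ) < D := by exact_mod_cast hD
  have h0 := PR_sqm_nonneg W
  have hrow := PR_sqm_row W hW
  have hcol := PR_sqm_col W hW
  obtain ⟨q₀, hq₀⟩ := hmix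
  have hq₀' : ∀ a b, 0 < (sqm W ^ q₀) a b := hq₀
  have hq₁ : ∀ a b, 0 < (sqm W ^ (q₀ + 1)) a b := by
    intro a b
    rw [pow_succ', Matrix.mul_apply]
    refine Finset.sum_pos' (fun c _ => mul_nonneg (h0 a c) (hq₀' c b).le) ?_
    by_contra hcon
    push Not at hcon
    have h1 : ∀ c, sqm W a c = 0 := by
      intro c
      have h2 := hcon c (Finset.mem_univ c)
      have h3 := hq₀' c b
      have h4 := h0 a c
      by_contra h5
      have h6 : 0 < sqm W a c := lt_of_le_of_ne h4 (Ne.symm h5)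
      have := mul_pos h6 h3
      linarith
    have := hrow a
    simp [h1] at this
  have hne : (Finset.univ : Finset (Fin D × Fin D)).Nonempty :=
    ⟨(⟨0, hD⟩, ⟨0, hD⟩), Finset.mem_univ _⟩
  obtain ⟨p, -, hp⟩ := Finset.exists_min_image Finset.univ
    (fun p : Fin D × Fin D => (sqm W ^ (q₀ + 1)) p.1 p.2) hne
  set κ := (sqm W ^ (q₀ + 1)) p.1 p.2 with hκ
  have hκ0 : 0 < κ := hq₁ _ _
  have hκ1 : ∀ a b, κ ≤ (sqm W ^ (q₀ + 1)) a b := fun a b => hp (a, b) (Finset.mem_univ _)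
  have hr := PR_pow_row (sqm W) hrow (q₀ + 1)
  have hc := PR_pow_col (sqm W) hcol (q₀ + 1)
  have hle : D * κ ≤ 1 := by
    rw [← hr ⟨0, hD⟩]
    calc (D : ℝ) * κ = ∑ _b : Fin D, κ := by simp
      _ ≤ _ := Finset.sum_le_sum fun b _ => hκ1 _ b
  have hlt : 1 - D * κ < 1 := by
    have := mul_pos hD0 hκ0
    linarith
  obtain ⟨m, hm⟩ := exists_pow_lt_of_lt_one (div_pos hη hD0) hlt
  have hm' : (1 - D * κ) ^ (m + 1) ≤ η / D := by
    rw [pow_succ]
    have h1 : 0 ≤ (1 - D * κ) ^ m := pow_nonneg (by linarith) m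
    nlinarith
  refine ⟨(q₀ + 1) * (m + 1), Nat.mul_pos (Nat.succ_pos _) (Nat.succ_pos _), fun a b => ?_⟩
  rw [pow_mul]
  have h := PR_doeblin hD (sqm W ^ (q₀ + 1)) κ hκ1 hκ0.le hr hc (m + 1) a b
  have h2 := (abs_le.mp h).2
  have h3 : (1 + η) / D = 1 / D + η / D := by ring
  rw [h3]
  linarith

end Pool.Agent.helper30.RQ
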